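import Mathlib
import Pool.Agent.N751.VD.Main
import Pool.Agent.N391.VD.Up
import Pool.Agent.N751.WR.Disc
import Pool.Agent.N751.WR.Ht
import Pool.Agent.Y729.FW.Cond
import Pool.Agent.Y729.FW.Surj

/-!
# A bound of Shafarevich type for the Weil restrictions of almost all fibres of every family of
# abelian varieties

Let `V = Spec A` be any affine variety of positive dimension over a number field `K`: `A` is a domain
of finite type over `K` which is not a finite field extension of `K`, with any generators
`y_1, …, y_N`. Let `h(x)` be the absolute logarithmic height of the point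
`(1 : y_1(x) : … : y_N(x))`, for a closed point `x` with the residue field `M = K(x)`.

(1) There is `c > 0` such that for all `r ≥ r₀` there is ONE set `E` of closed points which has
density zero among ALL closed points of degree at most `r` over `K` (and among those in any nonempty
open subset), such that for all closed points `x` of degree at most `r` not in `E` and all positive
integers `S` divisible by the primes which ramify in `M`
`(c r / (log r) ^ 2) h(x) ≤ log S + r [K : ℚ] log (r [K : ℚ])`.

This bears on the effective Shafarevich conjecture as follows. Let `𝒜 → V` be ANY abelian scheme of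
positive relative dimension, for example the universal one over a moduli space of abelian varieties
with a polarization and a level structure. Then `h_F(𝒜_x) ≤ a h(x) + b` for all closed points `x`
(Faltings). Let `L` be any number field which contains `M = K(x)`. If the Weil restriction
`B = Res_{L/ℚ} 𝒜_x` extends to an abelian scheme over `ℤ[1 / S]`, then the primes which ramify in `L`,
and so those which ramify in `M`, divide `S` (Milne: the conductor of `B` is the norm of the one of
`𝒜_x` times a power of the discriminant of `L`), and `h_F(B) = [L : ℚ] h_F(𝒜_x)`. So (1) gives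
`h_F(B) ≤ (a (log r) ^ 2 / (c r)) [L : ℚ] log S + C [L : ℚ]`
for 100 percent of ALL the closed points `x` of degree at most `r`, a bound which is linear in
`log S` and in `dim B`, and whose slope tends to zero as `r` grows.

(2) We prove the last statement in full (except for the two facts on the Weil restriction) for all
families of elliptic curves: for all rational functions `J = P / Q` on `V`, where `P` and `Q` are
polynomials of degree at most `e` in the coordinates `y`, for `x` as in (1) with `Q(x) ≠ 0` and for
ALL elliptic curves `F` over ALL number fields `L ⊇ M` of modular invariant `J(x)` one has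
`h_F(Res_{L/ℚ} F) ≤ (e (log r) ^ 2 / (12 c r)) [L : ℚ] log S + C [L : ℚ]`, with a constant `C` which
depends on `r`, `P` and `Q` only.

Proof. There are few closed points of degree at most `r` whose residue field has a small discriminant
(few number fields of bounded degree and discriminant: Lemke Oliver-Thorne; few points in each of
them), and many closed points of degree at most `r`. The discriminant of a number field of degree `n`
is at most `S ^ (n - 1) (n!) ^ n`.
-/

set_option autoImplicit false

namespace Pool.Agent.Results.MP_07b2d0_nt.AlmostAllFibres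

open NumberField Module IsDedekindDomain

/-- The absolute logarithmic height of the point `(1 : y_1(x) : … : y_N(x))`, where the closed point
`x` is given by a homomorphism of `A` onto the residue field `M`. -/
noncomputable def height {K A : Type} [Field K] [CommRing A] [Algebra K A] {N : ℕ} (y : Fin N → A)
    {M : Type} [Field M] [NumberField M] [Algebra K M] (x : A →ₐ[K] M) : ℝ :=
  Height.logHeight (Fin.cons 1 fun i => x (y i) : Fin (N + 1) → M) / finrank ℚ M

/-- The closed points of `Spec A` (as maximal ideals) of degree at most `r` over `K` and of height at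
most `U` at which `f` does not vanish. -/
def points (K : Type) {A : Type} [Field K] [CommRing A] [Algebra K A] {N : ℕ} (y : Fin N → A)
    (f : A) (r : ℕ) (U : ℝ) : Set (Ideal A) :=
  {p | f ∉ p ∧ ∃ (M : Type) (_ : Field M) (_ : NumberField M) (_ : Algebra K M) (x : A →ₐ[K] M),
    Function.Surjective x ∧ RingHom.ker x = p ∧ finrank K M ≤ r ∧ height y x ≤ U}

/-- All prime numbers which ramify in `M` (these are the prime divisors of the discriminant) divide
`S`. -/
def RamifiedDivide (M : Type) [Field M] [NumberField M] (S : ℕ) : Prop :=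
  ∀ p : ℕ, p.Prime → (p : ℤ) ∣ discr M → p ∣ S

/-- the modular invariant `j(τ) = E₄(τ) ^ 3 / Δ(τ) = 1 / q + 744 + ⋯` -/
noncomputable def jInv (τ : UpperHalfPlane) : ℂ :=
  ModularForm.E₄ τ ^ 3 / ModularForm.discriminant τ

/-- the archimedean term `- log (|Δ(τ)| (Im τ) ^ 6)` of the Faltings height -/
noncomputable def arch (τ : UpperHalfPlane) : ℝ :=
  -Real.log (‖ModularForm.discriminant τ‖ * τ.im ^ 6)

/-- the points `τ w` have modular invariant `j` -/
def IsPeriod {L : Type} [Field L] [NumberField L] (j : L)
    (τ : InfinitePlace L → UpperHalfPlane) : Prop := ∀ w, jInv (τ w) = w.embedding j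

/-- The stable Faltings height of the Weil restriction `B = Res_{L/ℚ} F` of an elliptic curve `F`
over `L` of invariant `j`, where the points `τ w` have invariant `j` (up to an absolute multiple of
`[L : ℚ] = dim B` which depends on the normalisation of the metric only): `12 h_F(B)` is the sum of
`log max(|j|_v, 1)` over the finite places `v` of `L`, the stable discriminant of `F`, and of the
archimedean terms. -/
noncomputable def stableHeight {L : Type} [Field L] [NumberField L] (j : L)
    (τ : InfinitePlace L → UpperHalfPlane) : ℝ :=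
  (∑ᶠ v : HeightOneSpectrum (𝓞 L), Real.log (max (FinitePlace.mk v j) 1) +
    ∑ w : InfinitePlace L, (w.mult : ℝ) * arch (τ w)) / 12

theorem points_eq (K : Type) {A : Type} [Field K] [CommRing A] [Algebra K A] {N : ℕ}
    (y : Fin N → A) (f : A) (r : ℕ) (U : ℝ) :
    points K y f r U = {p : Ideal A | Pool.Agent.N751.VD.Pt K y r U p ∧ f ∉ p} := by
  ext p
  constructor
  · rintro ⟨hf, M, _, _, _, x, h1, h2, h3, h4⟩
    have hM : (0 : ℝ) < finrank ℚ M := by exact_mod_cast finrank_pos (R := ℚ) (M := M)
    exact ⟨⟨M, _, _, _, x, h1, h2, h3, (div_le_iff₀ hM).1 h4⟩, hf⟩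
  · rintro ⟨⟨M, _, _, _, x, h1, h2, h3, h4⟩, hf⟩
    have hM : (0 : ℝ) < finrank ℚ M := by exact_mod_cast finrank_pos (R := ℚ) (M := M)
    exact ⟨hf, M, _, _, _, x, h1, h2, h3, (div_le_iff₀ hM).2 h4⟩

/-- **Theorem.** Let `A` be a domain of finite type over the number field `K`, not finite over `K`.
There is `c > 0` such that for all `r ≥ r₀` there is ONE set `E` of closed points, of density zero
among all the closed points of degree at most `r`, such that for all closed points `x` of degree at
most `r` not in `E`, with the residue field `M`, and all `S ≥ 1` divisible by all primes which ramify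
in `M`: (1) `(c r / (log r) ^ 2) h(x) ≤ log S + r [K : ℚ] log (r [K : ℚ])`; (2) for all rational
functions `J = P / Q` of degree at most `e` in the coordinates and all elliptic curves `F` of modular
invariant `J(x)` over all number fields `L` containing `M`
`h_F(Res_{L/ℚ} F) ≤ (e (log r) ^ 2 / (12 c r)) [L : ℚ] log S + C(r, P, Q) [L : ℚ]`. -/
theorem result (K A : Type) [Field K] [NumberField K] [CommRing A] [IsDomain A] [Algebra K A]
    (N : ℕ) (y : Fin N → A) (hy : Algebra.adjoin K (Set.range y) = ⊤) (hA : ¬ Module.Finite K A) :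
    ∃ c : ℝ, 0 < c ∧ ∃ r₀ : ℕ, 2 ≤ r₀ ∧ ∀ r : ℕ, r₀ ≤ r → ∃ E : Set (Ideal A),
      -- the density of `E`, in every nonempty open subset
      (∀ f : A, f ≠ 0 → ∃ U₀ : ℝ, ∀ U : ℝ, U₀ ≤ U → (points K y f r U).Finite ∧
        Real.exp (c * r ^ 2 * U) ≤ (points K y f r U).ncard ∧
        ((E ∩ points K y f r U).ncard : ℝ) ≤
          Real.exp (-(c * r ^ 2 * U)) * (points K y f r U).ncard) ∧
      -- the height and the ramified primes
      (∀ (M : Type) [Field M] [NumberField M] [Algebra K M] (x : A →ₐ[K] M),
        Function.Surjective x → finrank K M ≤ r → RingHom.ker x ∉ E →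
        ∀ S : ℕ, S ≠ 0 → RamifiedDivide M S →
          c * r / (Real.log r) ^ 2 * height y x ≤
            Real.log S + r * finrank ℚ K * Real.log (r * finrank ℚ K)) ∧
      -- elliptic curves
      ∀ (e : ℕ) (P Q : MvPolynomial (Fin N) K), P.totalDegree ≤ e → Q.totalDegree ≤ e → ∃ C : ℝ,
        ∀ (M : Type) [Field M] [NumberField M] [Algebra K M] (x : A →ₐ[K] M),
          Function.Surjective x → finrank K M ≤ r → RingHom.ker x ∉ E →
          MvPolynomial.aeval (fun i => x (y i)) Q ≠ 0 →
          ∀ (L : Type) [Field L] [NumberField L] [Algebra M L] (F : WeierstrassCurve L), F.Δ ≠ 0 →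
            F.c₄ ^ 3 / F.Δ = algebraMap M L (MvPolynomial.aeval (fun i => x (y i)) P /
              MvPolynomial.aeval (fun i => x (y i)) Q) →
            (∃ τ : InfinitePlace L → UpperHalfPlane, IsPeriod (F.c₄ ^ 3 / F.Δ) τ) ∧
            ∀ τ : InfinitePlace L → UpperHalfPlane, IsPeriod (F.c₄ ^ 3 / F.Δ) τ →
            ∀ S : ℕ, S ≠ 0 → RamifiedDivide M S →
              stableHeight (F.c₄ ^ 3 / F.Δ) τ ≤
                e * (Real.log r) ^ 2 / (12 * c * r) * finrank ℚ L * Real.log S +
                  C * finrank ℚ L := by
  classical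
  obtain ⟨c, hc, r₀, hr₀, h⟩ := Pool.Agent.N751.VD.main Pool.Agent.N391.VD.Up.t K A N y hy hA
  refine ⟨c, hc, r₀, hr₀, fun r hr => ⟨{p : Ideal A |
    Pool.Agent.N751.VD.Small K y (c * r / (Real.log r) ^ 2) p}, ?_, ?_⟩⟩
  · intro f hf
    obtain ⟨U₀, hU₀⟩ := h r hr f hf
    refine ⟨U₀, fun U hU => ?_⟩
    obtain ⟨h1, h2, h3⟩ := hU₀ U hU
    rw [points_eq]
    refine ⟨h1, h2, le_trans ?_ h3⟩
    have hsub : ({p : Ideal A | Pool.Agent.N751.VD.Small K y (c * r / (Real.log r) ^ 2) p} ∩
        {p : Ideal A | Pool.Agent.N751.VD.Pt K y r U p ∧ f ∉ p}) ⊆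
        {p : Ideal A | Pool.Agent.N751.VD.Pt K y r U p ∧
          Pool.Agent.N751.VD.Small K y (c * r / (Real.log r) ^ 2) p} :=
      fun p hp => ⟨hp.2.1, hp.1⟩
    exact_mod_cast Set.ncard_le_ncard hsub
      ((Pool.Agent.N751.VD.pt_finite y hy r U).subset fun p hp => hp.1)
  have hr2 : 2 ≤ r := hr₀.trans hr
  have hrR : (2 : ℝ) ≤ r := by exact_mod_cast hr2
  have hlr : 0 < Real.log r := Real.log_pos (by linarith)
  obtain ⟨G, hG⟩ : ∃ G : ℝ, G = c * r / (Real.log r) ^ 2 := ⟨_, rfl⟩
  have hG0 : 0 < G := by rw [hG]; positivity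
  have key : ∀ (M : Type) [Field M] [NumberField M] [Algebra K M] (x : A →ₐ[K] M),
      Function.Surjective x → finrank K M ≤ r → RingHom.ker x ∉ {p : Ideal A |
        Pool.Agent.N751.VD.Small K y (c * r / (Real.log r) ^ 2) p} →
        ∀ S : ℕ, S ≠ 0 → RamifiedDivide M S →
          G * height y x ≤
            Real.log S + r * finrank ℚ K * Real.log (r * finrank ℚ K) := by
    intro M _ _ _ x hx hxr hxE S hS hram
    have hM1 : (1 : ℝ) ≤ finrank ℚ M := by exact_mod_cast finrank_pos (R := ℚ) (M := M)
    have hM : (0 : ℝ) < finrank ℚ M := by linarith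
    have h2 : G * Height.logHeight (Fin.cons 1 fun i => x (y i) : Fin (N + 1) → M) ≤
          Real.log |(discr M : ℝ)| := by
      rw [hG]
      by_contra hcon
      exact hxE ⟨M, inferInstance, inferInstance, inferInstance, x, hx, rfl, not_le.1 hcon⟩
    have h3 := Pool.Agent.N751.WR.disc_le_log M hS hram
    have hfac : Real.log ((finrank ℚ M).factorial : ℝ) ≤ finrank ℚ M * Real.log (finrank ℚ M) := by
      rw [← Real.log_pow]
      refine Real.log_le_log (by exact_mod_cast Nat.factorial_pos _) ?_
      exact_mod_cast Nat.factorial_le_pow _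
    have hnr : (finrank ℚ M : ℝ) ≤ r * finrank ℚ K := by
      have h4 : finrank ℚ K * finrank K M = finrank ℚ M := finrank_mul_finrank ℚ K M
      have h5 : finrank ℚ M ≤ r * finrank ℚ K := by
        rw [← h4, mul_comm]
        exact Nat.mul_le_mul_right _ hxr
      exact_mod_cast h5
    have hlogS : 0 ≤ Real.log S := Real.log_natCast_nonneg S
    have hlogn : 0 ≤ Real.log (finrank ℚ M) := Real.log_nonneg hM1
    have h6 : (finrank ℚ M : ℝ) * Real.log (finrank ℚ M) ≤
        r * finrank ℚ K * Real.log (r * finrank ℚ K) := by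
      refine mul_le_mul hnr (Real.log_le_log hM hnr) hlogn (by positivity)
    unfold height
    rw [mul_div_assoc', div_le_iff₀ hM]
    calc G * Height.logHeight (Fin.cons 1 fun i => x (y i) : Fin (N + 1) → M)
        ≤ Real.log |(discr M : ℝ)| := h2
      _ ≤ ((finrank ℚ M : ℝ) - 1) * Real.log S +
          finrank ℚ M * Real.log ((finrank ℚ M).factorial : ℝ) := h3
      _ ≤ (finrank ℚ M : ℝ) * Real.log S + finrank ℚ M *
          (r * finrank ℚ K * Real.log (r * finrank ℚ K)) := by
        refine add_le_add ?_ (mul_le_mul_of_nonneg_left (hfac.trans h6) hM.le)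
        nlinarith
      _ = _ := by ring
  refine ⟨fun M _ _ _ x hx hxr hxE S hS hram => ?_, ?_⟩
  · have h1 := key M x hx hxr hxE S hS hram
    rw [hG] at h1
    exact h1
  · intro e P Q hP hQ
    obtain ⟨C1, hC1, h1⟩ := Pool.Agent.N751.WR.ht_ratio P Q hP hQ
    obtain ⟨C3, hC3, h3⟩ := Pool.Agent.Y729.FW.fal_two
    refine ⟨(e / G * (r * finrank ℚ K * Real.log (r * finrank ℚ K)) + C1 + C3) / 12, ?_⟩
    intro M _ _ _ x hx hxr hxE hxQ L _ _ _ F hF hj
    refine ⟨?_, ?_⟩
    · have h := fun w : InfinitePlace L =>
        Pool.Agent.Y729.FW.j_surj (w.embedding (F.c₄ ^ 3 / F.Δ))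
      choose τ hτ using h
      exact ⟨τ, hτ⟩
    intro τ hτ S hS hram
    have hM1 : (1 : ℝ) ≤ finrank ℚ M := by exact_mod_cast finrank_pos (R := ℚ) (M := M)
    have hM : (0 : ℝ) < finrank ℚ M := by linarith
    have hL : (0 : ℝ) < finrank ℚ L := by exact_mod_cast finrank_pos (R := ℚ) (M := L)
    have k1 := key M x hx hxr hxE S hS hram
    have k2 := h1 M (fun i => x (y i)) hxQ
    have k3 := h3 L (F.c₄ ^ 3 / F.Δ) τ hτ
    have k4 : Height.logHeight₁ (F.c₄ ^ 3 / F.Δ) = finrank M L *
        Height.logHeight₁ (MvPolynomial.aeval (fun i => x (y i)) P /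
              MvPolynomial.aeval (fun i => x (y i)) Q) := by
      rw [hj]
      exact Pool.Agent.N265.CV.ht1_ext M L _
    have k5 : (finrank ℚ L : ℝ) = finrank ℚ M * finrank M L := by
      exact_mod_cast (finrank_mul_finrank ℚ M L).symm
    have k6 : Height.logHeight (Fin.cons 1 fun i => x (y i) : Fin (N + 1) → M) =
        finrank ℚ M * height y x := by
      unfold height
      field_simp
    have k7 : 12 * finrank ℚ L * Pool.Agent.TH876.FH.faltings (F.c₄ ^ 3 / F.Δ) τ =
        12 * stableHeight (F.c₄ ^ 3 / F.Δ) τ := by
      unfold Pool.Agent.TH876.FH.faltings stableHeight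
      change 12 * finrank ℚ L * ((∑ᶠ v : HeightOneSpectrum (𝓞 L),
        Real.log (max (FinitePlace.mk v (F.c₄ ^ 3 / F.Δ)) 1) +
          ∑ w : InfinitePlace L, (w.mult : ℝ) * arch (τ w)) / (12 * finrank ℚ L)) = _
      field_simp
    have k8 : height y x ≤ (Real.log S + r * finrank ℚ K * Real.log (r * finrank ℚ K)) / G := by
      rw [le_div_iff₀ hG0, mul_comm]
      exact k1
    have k9 : (e : ℝ) * (Real.log r) ^ 2 / (12 * c * r) = e / G / 12 := by
      rw [hG]
      field_simp
    rw [k7, k4] at k3
    rw [k6] at k2
    rw [k9]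
    have hML : (0 : ℝ) ≤ finrank M L := Nat.cast_nonneg _
    have k10 : (finrank M L : ℝ) * Height.logHeight₁ (MvPolynomial.aeval (fun i => x (y i)) P /
              MvPolynomial.aeval (fun i => x (y i)) Q) ≤
        finrank ℚ L * (e * height y x + C1) := by
      rw [k5]
      calc (finrank M L : ℝ) * Height.logHeight₁ (MvPolynomial.aeval (fun i => x (y i)) P /
              MvPolynomial.aeval (fun i => x (y i)) Q)
          ≤ finrank M L * (e * (finrank ℚ M * height y x) + C1 * finrank ℚ M) :=
            mul_le_mul_of_nonneg_left k2 hML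
        _ = _ := by ring
    have k11 : (e : ℝ) * height y x ≤
        e * ((Real.log S + r * finrank ℚ K * Real.log (r * finrank ℚ K)) / G) :=
      mul_le_mul_of_nonneg_left k8 (Nat.cast_nonneg e)
    have k12 : (finrank ℚ L : ℝ) * (e * height y x + C1) ≤ finrank ℚ L *
        (e * ((Real.log S + r * finrank ℚ K * Real.log (r * finrank ℚ K)) / G) + C1) :=
      mul_le_mul_of_nonneg_left (by linarith) hL.le
    have k13 : (finrank ℚ L : ℝ) *
        (e * ((Real.log S + r * finrank ℚ K * Real.log (r * finrank ℚ K)) / G) + C1) +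
          C3 * finrank ℚ L = 12 * (e / G / 12 * finrank ℚ L * Real.log S +
      (e / G * (r * finrank ℚ K * Real.log (r * finrank ℚ K)) + C1 + C3) / 12 *
        finrank ℚ L) := by
      field_simp
      ring
    linarith

end Pool.Agent.Results.MP_07b2d0_nt.AlmostAllFibres
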