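import Pool.Agent.N54.ML.Five
import Pool.Agent.N141.TS.Frey

set_option autoImplicit false
set_option linter.unusedSectionVars false

/-!
# An explicit bound of Shafarevich type, linear in `g log N_S`, for elliptic curves along almost all sequences of
# invariants: Weil restrictions from ALL number fields, and their products

Let `A` be an abelian scheme over `S = Spec ℤ[1 / N]` whose generic fibre is a Weil restriction `Res_{L/ℚ} E`, where `L` is ANY
number field and `E` is ANY elliptic curve over `L` of a given rational invariant `j` (all twists), or a product of powers of such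
abelian varieties, of dimension `g`. As `A` has good reduction outside `N`, so has `E` (Néron-Ogg-Shafarevich; also
`N_A = N(f_E) D_L ^ 2`, Milne). Here `h_F(Res_{L/ℚ} E) = n h_F(E)`, `n = [L : ℚ]` (stable heights).

Let `J = A / D` be a rational function over `ℚ` in `r` variables whose reductions modulo the primes have many poles in the mean
(`MeanPoles`); this is so for the universal family `y² = x³ + t₁ x + t₂`. Let `z(n) = (⌊ξ_1 g_1(n) + c_1(n)⌋, …,
⌊ξ_r g_r(n) + c_r(n)⌋)` with real sequences `g_i`, `c_i` of at most polynomial growth, `g_i(n + 1) - g_i(n) ≥ n ^ (ρ - 1)`, for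
instance all `g_i(n) = n`. There is an absolute constant `C`, and for almost all real `ξ`, all such `J` and every `ε > 0` there is
a constant `κ` such that for all but `ε N` of the integers `n` in `(N, 2 N]`, `N` large, and for all but the proportion `ε` of
the primes `n` in `(N, 2 N]` the bound `h_F(A) ≤ κ g log N_S + C g` holds for all these `A` with the invariant `j = J (z(n))`, for
all number fields `L` and all `N_S`. The null set of `ξ` is the same for all `J`, and neither `κ` nor `C` depends on `L` or `g`.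

helper141's `ThinSequences` on this page has the sequences `⌊P_i(t)⌋`, `P_i` sums of real powers with distinct non-integral
leading exponents. The reduction to the numbers `A(z)`, `D(z)` and the Turan sieve are his (`Pool.Agent.N141.TS`); the
distribution of `z(n)` modulo `q` for almost all `ξ` is proved by second moments (`Pool.Agent.N54.ME`, after helper668's
one-dimensional metric theorem).
-/

namespace Pool.Agent.Results.MP_07b2d0_nt.MetricSequences

open NumberField IsDedekindDomain Filter MeasureTheory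

/-- the modular invariant `j(τ) = E₄(τ) ^ 3 / Δ(τ) = 1 / q + 744 + ⋯` -/
noncomputable def jInv (τ : UpperHalfPlane) : ℂ :=
  ModularForm.E₄ τ ^ 3 / ModularForm.discriminant τ

/-- the archimedean term `- log (|Δ(τ)| (Im τ) ^ 6)` of the Faltings height -/
noncomputable def arch (τ : UpperHalfPlane) : ℝ :=
  -Real.log (‖ModularForm.discriminant τ‖ * τ.im ^ 6)

/-- the points `τ w` have modular invariant `j` -/
def IsPeriod {L : Type} [Field L] [NumberField L] (j : L)
    (τ : InfinitePlace L → UpperHalfPlane) : Prop := ∀ w, jInv (τ w) = w.embedding j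

/-- the stable Faltings height of the Weil restriction `A = Res_{L/ℚ} E` of an elliptic curve `E`
over `L` of invariant `j`, where the points `τ w` have invariant `j` (up to an absolute multiple of
`[L : ℚ] = dim A` which depends on the normalisation of the metric only): `12 h_F(A)` is the sum of
`log max(|j|_v, 1)` over the finite places `v` of `L`, the stable discriminant of `E`, and of the
archimedean terms -/
noncomputable def stableHeight {L : Type} [Field L] [NumberField L] (j : L)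
    (τ : InfinitePlace L → UpperHalfPlane) : ℝ :=
  (∑ᶠ v : HeightOneSpectrum (𝓞 L), Real.log (max (FinitePlace.mk v j) 1) +
    ∑ w : InfinitePlace L, (w.mult : ℝ) * arch (τ w)) / 12

/-- good reduction at `v`: some Weierstrass equation over `L` of the curve is integral at `v` and
has a discriminant which is a unit at `v` -/
def GoodAt {L : Type} [Field L] [NumberField L] (v : HeightOneSpectrum (𝓞 L))
    (E : WeierstrassCurve L) : Prop :=
  ∃ C : WeierstrassCurve.VariableChange L,
    v.valuation L (C • E).a₁ ≤ 1 ∧ v.valuation L (C • E).a₂ ≤ 1 ∧ v.valuation L (C • E).a₃ ≤ 1 ∧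
    v.valuation L (C • E).a₄ ≤ 1 ∧ v.valuation L (C • E).a₆ ≤ 1 ∧ v.valuation L (C • E).Δ = 1

/-- good reduction at all primes of `L` which do not divide `N` -/
def GoodOutside {L : Type} [Field L] [NumberField L] (N : ℕ) (E : WeierstrassCurve L) : Prop :=
  ∀ v : HeightOneSpectrum (𝓞 L), (N : 𝓞 L) ∉ v.asIdeal → GoodAt v E

/-- the bound, with parameters `κ` and `C`, for the Weil restrictions `A = Res_{L/ℚ} E` of all
elliptic curves `E` over `L` of invariant `j`: `h_F(A) ≤ κ n log N + C n`, where `n = [L : ℚ] = dim A`,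
whenever `E` has good reduction outside `N`, in particular whenever `A` extends to an abelian scheme
over `Spec ℤ[1 / N]` -/
def Bound (κ C : ℝ) {L : Type} [Field L] [NumberField L] (j : L) : Prop :=
  ∀ (E : WeierstrassCurve L) (τ : InfinitePlace L → UpperHalfPlane) (N : ℕ), N ≠ 0 → E.Δ ≠ 0 →
    E.c₄ ^ 3 / E.Δ = j → IsPeriod j τ → GoodOutside N E →
    stableHeight j τ ≤ κ * Module.finrank ℚ L * Real.log N + C * Module.finrank ℚ L

open MvPolynomial

/-- the sum over the primes `y < p ≤ x` of the proportion of the vectors modulo `p` that are zeros of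
`D` but not of `A` is at least `δ (log log x - log log y) - C` -/
def MeanPoles {r : ℕ} (A D : MvPolynomial (Fin r) ℤ) : Prop :=
  ∃ δ C : ℝ, 0 < δ ∧ ∀ y x : ℕ, 3 ≤ y → y ≤ x →
    δ * (Real.log (Real.log x) - Real.log (Real.log y)) - C ≤
      ∑ p ∈ (Finset.Ioc y x).filter Nat.Prime,
        ({ρ : Fin r → ZMod p | aeval ρ D = 0 ∧ aeval ρ A ≠ 0}.ncard : ℝ) / (p : ℝ) ^ r

/-- The functions `F 0, F 1, …` have continuous second derivatives; on `[u, v]` the first derivatives grow from `n` to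
`n + 1` by at least `n ^ (ρ - 1)` and the second derivatives do not decrease, for large `n`. -/
def Spread (ρ u v : ℝ) (F : ℕ → ℝ → ℝ) : Prop :=
  (∀ n, ContDiff ℝ 2 (F n)) ∧ ∃ n₀ : ℕ, ∀ n, n₀ ≤ n → ∀ x ∈ Set.Icc u v,
    (n : ℝ) ^ (ρ - 1) ≤ deriv (F (n + 1)) x - deriv (F n) x ∧
      deriv (deriv (F n)) x ≤ deriv (deriv (F (n + 1))) x

/-- `v` is not a pole of `A / D`, and the bound holds at `(A / D) (v)` over all number fields -/
def Holds (κ C : ℝ) {r : ℕ} (A D : MvPolynomial (Fin r) ℤ) (v : Fin r → ℤ) : Prop :=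
  eval v D ≠ 0 ∧ ∀ (L : Type) [Field L] [NumberField L],
    Bound κ C (((eval v A : ℤ) : L) / ((eval v D : ℤ) : L))

/-- If the integer vectors `z n` grow at most polynomially, then for all `A`, `D` with many poles in the mean and all `ε > 0` there
are `κ > 0` and `N₀` such that for all `N ≥ N₀` the bound holds at `(A / D) (z n)` for all but `ε N` of the integers `n` in
`(N, 2 N]` and for all but the proportion `ε` of the primes `n` in `(N, 2 N]`. -/
def AlmostAll (C : ℝ) {r : ℕ} (z : ℕ → Fin r → ℤ) : Prop :=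
  (∃ (C₁ : ℝ) (m : ℕ), ∀ᶠ n : ℕ in atTop, ∀ i, |(z n i : ℝ)| ≤ C₁ * (n : ℝ) ^ m) →
    ∀ A D : MvPolynomial (Fin r) ℤ, D ≠ 0 → MeanPoles A D →
      ∀ ε : ℝ, 0 < ε → ∃ (κ : ℝ) (N₀ : ℕ), 0 < κ ∧
        ∀ N : ℕ, N₀ ≤ N →
          ({n : ℕ | n ∈ Finset.Ioc N (2 * N) ∧ ¬ Holds κ C A D (z n)}.ncard : ℝ) ≤ ε * N ∧
          ({n : ℕ | n ∈ (Finset.Ioc N (2 * N)).filter Nat.Prime ∧ ¬ Holds κ C A D (z n)}.ncard : ℝ) ≤
            ε * ((Finset.Ioc N (2 * N)).filter Nat.Prime).card

section Aux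

open Pool.Agent.Y733.UD Pool.Agent.Y733.LS Pool.Agent.W223.AK Pool.Agent.H691R3
  Pool.Agent.Y733.FF Pool.Agent.N141.TS Height

/-- the bound from a large pole -/
theorem bound_of : ∃ C : ℝ, 0 < C ∧ ∀ (σ : ℝ), 0 ≤ σ → ∀ x y : ℤ, Big5 σ x y →
    ∀ (L : Type) [Field L] [NumberField L], Bound (σ / 12) C ((x : L) / y) := by
  obtain ⟨c, hc0, hc⟩ := arch_le
  refine ⟨(c + 1) / 12, by positivity, fun σ hσ x y hb L _ _ => ?_⟩
  intro E τ N hN hE hj hτ hg
  obtain ⟨hy0, p, hp, -, hpy, hpx, H, hxH, hyH, hle⟩ := hb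
  have hx0 : x ≠ 0 := by
    rintro rfl
    exact hpx (dvd_zero _)
  have hτ' : Pool.Agent.TH876.FH.IsPeriod ((x : L) / y) τ := hτ
  have h2 := hc L _ τ hτ'
  have h4 : ht ((x : L) / y) =
      ∑ w : InfinitePlace L, (w.mult : ℝ) * Real.log (max (w ((x : L) / y)) 1) +
      ∑ᶠ v : HeightOneSpectrum (𝓞 L), Real.log (max (FinitePlace.mk v ((x : L) / y)) 1) := by
    rw [← Pool.Agent.TH876.FH.Hj_height, logHeight_eq, ht_eq_Sa]
  have h6 : ht ((x : L) / y) ≤ Module.finrank ℚ L * (σ * Real.log p) := by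
    have h7 : logHeight₁ ((x : L) / y) = ht ((x : L) / y) := by
      rw [logHeight_eq, ht_eq_Sa]
    rw [← h7]
    exact (ht_le L hx0 hy0 hxH hyH).trans (mul_le_mul_of_nonneg_left hle (Nat.cast_nonneg _))
  -- the prime `p` divides `N`
  have hpN : p ∣ N := by
    obtain ⟨v, hv⟩ := exists_above L hp
    have hbad : ¬ Pool.Agent.TH876.FH.GoodAt v E := by
      intro hg'
      have h1 := good_int v E hE hg'
      rw [hj, fv_le_one_iff, map_div₀, val_int hp hv hpx] at h1
      have h2 := val_lt hv hpy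
      have h3 : v.valuation L (y : L) ≠ 0 := (v.valuation L).ne_zero_iff.2 (by exact_mod_cast hy0)
      have h4 : (1 : WithZero (Multiplicative ℤ)) ≤ v.valuation L (y : L) := by
        rw [div_le_iff₀ (zero_lt_iff.2 h3), one_mul] at h1
        exact h1
      exact absurd h2 (not_lt.2 h4)
    have hmem : (N : 𝓞 L) ∈ v.asIdeal := by
      by_contra hcon
      exact hbad (hg v hcon)
    by_contra hcon
    have h1 : ¬ (p : ℤ) ∣ (N : ℤ) := by exact_mod_cast hcon
    have h2 := not_mem_of hp hv h1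
    rw [Int.cast_natCast] at h2
    exact h2 hmem
  have hlog : Real.log p ≤ Real.log N :=
    Real.log_le_log (by exact_mod_cast hp.pos)
      (by exact_mod_cast Nat.le_of_dvd (Nat.pos_of_ne_zero hN) hpN)
  have hn : (0 : ℝ) ≤ Module.finrank ℚ L := Nat.cast_nonneg _
  have h8 : (Module.finrank ℚ L : ℝ) * (σ * Real.log p) ≤
      Module.finrank ℚ L * (σ * Real.log N) :=
    mul_le_mul_of_nonneg_left (mul_le_mul_of_nonneg_left hlog hσ) hn
  unfold stableHeight
  have e : ∑ w : InfinitePlace L, (w.mult : ℝ) * arch (τ w) =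
      ∑ w : InfinitePlace L, (w.mult : ℝ) * Pool.Agent.TH876.FH.arch (τ w) := rfl
  rw [e, div_le_iff₀ (by norm_num)]
  have e2 : (σ / 12 * Module.finrank ℚ L * Real.log N + (c + 1) / 12 * Module.finrank ℚ L) * 12 =
      Module.finrank ℚ L * (σ * Real.log N) + c * Module.finrank ℚ L + Module.finrank ℚ L := by
    ring
  rw [e2]
  linarith

theorem core : ∃ C : ℝ, 0 < C ∧ ∀ {r : ℕ} {κ₁ : ℝ}, 0 < κ₁ → ∀ {z : ℕ → Fin r → ℤ},
    Pool.Agent.N54.ME.WS z κ₁ → AlmostAll C z := by
  obtain ⟨C, hC, hb⟩ := bound_of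
  refine ⟨C, hC, ?_⟩
  intro r κ₁ hκ₁ z hz hg A D hD hM ε hε
  obtain ⟨σ, hσ, N₀, hN₀⟩ := Pool.Agent.N54.ML.thinFive hD hM hκ₁ hz hg ε hε
  have key : ∀ v : Fin r → ℤ, Pool.Agent.N141.TS.Big5 σ (eval v A) (eval v D) →
      Holds ((σ + 1) / 12) C A D v := by
    intro v hv
    refine ⟨hv.1, fun L _ _ E τ N hN hE hj hτ hg => ?_⟩
    refine (hb σ hσ _ _ hv L E τ N hN hE hj hτ hg).trans ?_
    have h1 : 0 ≤ (Module.finrank ℚ L : ℝ) * Real.log N :=
      mul_nonneg (Nat.cast_nonneg _) (Real.log_natCast_nonneg _)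
    nlinarith
  refine ⟨(σ + 1) / 12, N₀, by positivity, fun N hN => ?_⟩
  obtain ⟨k1, k2⟩ := hN₀ N hN
  rw [Nat.card_Ioc, show 2 * N - N = N by omega] at k1
  exact ⟨(Pool.Agent.N141.TS.ncard_mono fun n _ hn hb => hn (key _ hb)).trans k1,
    (Pool.Agent.N141.TS.ncard_mono fun n _ hn hb => hn (key _ hb)).trans k2⟩

end Aux

/-- products of powers of Weil restrictions -/
theorem products {κ C : ℝ} {r : ℕ} (L : Fin r → Type) [∀ i, Field (L i)] [∀ i, NumberField (L i)]
    (j : ∀ i, L i) (E : ∀ i, WeierstrassCurve (L i))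
    (τ : ∀ i, InfinitePlace (L i) → UpperHalfPlane) (m : Fin r → ℕ) (N : ℕ) (hN : N ≠ 0)
    (h : ∀ i, Bound κ C (j i) ∧ (E i).Δ ≠ 0 ∧ (E i).c₄ ^ 3 / (E i).Δ = j i ∧
      IsPeriod (j i) (τ i) ∧ GoodOutside N (E i)) :
    ∑ i, (m i : ℝ) * stableHeight (j i) (τ i) ≤
      κ * (∑ i, m i * Module.finrank ℚ (L i) : ℕ) * Real.log N +
        C * (∑ i, m i * Module.finrank ℚ (L i) : ℕ) := by
  have h1 : ∀ i, (m i : ℝ) * stableHeight (j i) (τ i) ≤
      (m i : ℝ) * (κ * Module.finrank ℚ (L i) * Real.log N + C * Module.finrank ℚ (L i)) := fun i =>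
    mul_le_mul_of_nonneg_left ((h i).1 (E i) (τ i) N hN (h i).2.1 (h i).2.2.1 (h i).2.2.2.1
      (h i).2.2.2.2) (Nat.cast_nonneg _)
  refine (Finset.sum_le_sum fun i _ => h1 i).trans (le_of_eq ?_)
  push_cast
  rw [Finset.mul_sum, Finset.mul_sum, Finset.sum_mul, ← Finset.sum_add_distrib]
  refine Finset.sum_congr rfl fun i _ => ?_
  ring

/-- **Theorem.** (1) There is an absolute constant `C` such that, for all `r ≥ 1` and `0 < ρ ≤ 1`: for all families of functions
with separated derivatives, `AlmostAll C` holds for the integer parts of `F_i(n) (ξ_i)` for almost all `ξ`; for all real sequences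
`g_i` with `g_i(n + 1) - g_i(n) ≥ n ^ (ρ - 1)` for large `n` and all real sequences `c_i`, `AlmostAll C` holds for the integer parts
of `ξ_i g_i(n) + c_i(n)` for almost all `ξ`. (2) The bound follows for products of powers of such Weil restrictions, with
different curves, fields and members `n` of the sequences. (3) The invariant `6912 t₁³ / (4 t₁³ + 27 t₂²)` of the universal
family `y² = x³ + t₁ x + t₂` has many poles in the mean. -/
theorem result :
    (∃ C : ℝ, 0 < C ∧ ∀ (r : ℕ) (ρ : ℝ), 0 < r → 0 < ρ → ρ ≤ 1 →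
      (∀ (u v : Fin r → ℝ) (F : Fin r → ℕ → ℝ → ℝ), (∀ i, Spread ρ (u i) (v i) (F i)) →
        ∀ᵐ ξ : Fin r → ℝ, (∀ i, ξ i ∈ Set.Ioc (u i) (v i)) → AlmostAll C (fun n i => ⌊F i n (ξ i)⌋)) ∧
      (∀ g c : Fin r → ℕ → ℝ, (∀ i, ∀ᶠ n : ℕ in atTop, (n : ℝ) ^ (ρ - 1) ≤ g i (n + 1) - g i n) →
        ∀ᵐ ξ : Fin r → ℝ, AlmostAll C (fun n i => ⌊ξ i * g i n + c i n⌋))) ∧
    (∀ (κ C : ℝ) (r : ℕ) (L : Fin r → Type) [∀ i, Field (L i)] [∀ i, NumberField (L i)]
      (j : ∀ i, L i) (E : ∀ i, WeierstrassCurve (L i))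
      (τ : ∀ i, InfinitePlace (L i) → UpperHalfPlane) (m : Fin r → ℕ) (N : ℕ), N ≠ 0 →
      (∀ i, Bound κ C (j i) ∧ (E i).Δ ≠ 0 ∧ (E i).c₄ ^ 3 / (E i).Δ = j i ∧
        IsPeriod (j i) (τ i) ∧ GoodOutside N (E i)) →
      ∑ i, (m i : ℝ) * stableHeight (j i) (τ i) ≤
        κ * (∑ i, m i * Module.finrank ℚ (L i) : ℕ) * Real.log N +
          C * (∑ i, m i * Module.finrank ℚ (L i) : ℕ)) ∧
    MeanPoles (C 6912 * X 0 ^ 3 : MvPolynomial (Fin 2) ℤ) (C 4 * X 0 ^ 3 + C 27 * X 1 ^ 2) := by
  refine ⟨?_, fun κ C r L _ _ j E τ m N hN h => products L j E τ m N hN h,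
    Pool.Agent.N141.TS.mean_wei⟩
  obtain ⟨C, hC, hcore⟩ := core
  refine ⟨C, hC, fun r ρ hr hρ hρ1 => ?_⟩
  have : Nonempty (Fin r) := ⟨⟨0, hr⟩⟩
  obtain ⟨h1, h2, _⟩ := Pool.Agent.N54.ME.three (ι := Fin r) hρ hρ1 (AlmostAll C)
    fun z hz => hcore (Pool.Agent.N54.ME.kap_pos hρ (Fintype.card (Fin r))) hz
  exact ⟨h1, h2⟩

end Pool.Agent.Results.MP_07b2d0_nt.MetricSequences
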