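import Pool.Agent.N384.VF.Big5
import Pool.Agent.N384.VF.Ex
import Pool.Agent.N141.TS.Frey

/-!
# MP_07b2d0_nt: an explicit bound of Shafarevich type, linear in `g log N_S`, for elliptic curves in families with several
# parameters which are in families of vectors of residues: Weil restrictions from ALL number fields, and their products

Let `A` be an abelian scheme over `S = Spec ℤ[1 / N]` whose generic fibre is a Weil restriction
`Res_{L/ℚ} E`, where `L` is ANY number field and `E` is ANY elliptic curve over `L` of a given rational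
invariant `j` (all twists), or a product of powers of such abelian varieties, of dimension `g`. As `A`
has good reduction outside `N`, so has `E` (Néron-Ogg-Shafarevich; also `N_A = N(f_E) D_L ^ 2`, Milne).
Here `h_F(Res_{L/ℚ} E) = n h_F(E)`, `n = [L : ℚ]` (stable heights: over the algebraic closure it is the
product of the conjugates of `E`), and `12 n h_F(E)` is the sum of `log max(|j|_v, 1)` over the finite
places `v` of `L` and of the archimedean terms.

Let `J = A / D` be a rational function over `ℚ` in `r` variables, for example the `j`-invariant of an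
elliptic curve over `ℚ(t₁, …, t_r)`, whose reductions modulo the primes have many poles in the mean
(`MeanPoles`); this is so for the universal family `y² = x³ + t₁ x + t₂`.

From Mathlib: `ZMod.stdAddChar`: the additive character `j ↦ exp (2 π i j / q)` of the integers modulo `q`; `ZMod.val`: the
least residue; `Fintype.piFinset`: the product of finite sets.

Proof. A family of vectors of residues modulo `q` with small Fourier coefficients is uniformly distributed
in the residue classes modulo all integers up to a power of `Z` (`N384/VF`: completion in each coordinate).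
By Turan's sieve (`Pool.Agent.N666.TM`, `N141.TS.core0`) almost all members have a prime `p` larger than a power of `Z` dividing
`D` and not `A`. All elliptic curves of invariant `j` over number fields have bad reduction at the primes above `p`, so `p`
divides `N`, while the height of `j` is `O(log q)`, hence `O(log p)` (`Pool.Agent.N141.TS.Frey`). Examples: products, the lemma of Ajtai, Iwaniec, Komlos, Pintz and Szemeredi on quotients by small primes, the
Stepanov type lemma of Heath-Brown and Konyagin for subgroups (library `H435R3.HBK`, `N825.FC`), and Weyl sums without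
losses (library `H373R2.NB`).
-/

set_option autoImplicit false
set_option linter.unusedSectionVars false

namespace Pool.Agent.Results.MP_07b2d0_nt.ResidueVectors

open NumberField IsDedekindDomain

/-- The Fourier coefficients of the vectors of residues `y i`, `i ∈ s`, modulo `q` at the nonzero frequencies are at most
`η` times the number of the vectors: `|∑ i ∈ s, e(h·y_i / q)| ≤ η |s|` for all vectors `h ≠ 0` modulo `q`. -/
def Flat {τ ι : Type} [Fintype ι] (q : ℕ) [NeZero q] (η : ℝ) (s : Finset τ) (y : τ → ι → ZMod q) : Prop :=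
  ∀ h : ι → ZMod q, h ≠ 0 → ‖∑ i ∈ s, (ZMod.stdAddChar (∑ j, h j * y i j) : ℂ)‖ ≤ η * s.card

/-- The same for residues (vectors with one coordinate). -/
def Flat1 {τ : Type} (q : ℕ) [NeZero q] (η : ℝ) (s : Finset τ) (y : τ → ZMod q) : Prop :=
  ∀ h : ZMod q, h ≠ 0 → ‖∑ i ∈ s, (ZMod.stdAddChar (h * y i) : ℂ)‖ ≤ η * s.card

/-- `Z ≤ q`, and the Fourier coefficients at the nonzero frequencies are at most `|s| / (Z (42 + 3 log q) ^ r)`, where `r` is
the number of the coordinates. -/
def Small {τ ι : Type} [Fintype ι] (q : ℕ) [NeZero q] (Z : ℝ) (s : Finset τ) (y : τ → ι → ZMod q) : Prop :=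
  Z ≤ q ∧ Flat q (1 / (Z * (42 + 3 * Real.log q) ^ Fintype.card ι)) s y

/-- The integral vector `c₀ + y_i`, with the least residues `0 ≤ y_i < q`. -/
def vec {τ ι : Type} {q : ℕ} (y : τ → ι → ZMod q) (c₀ : ι → ℤ) (i : τ) (j : ι) : ℤ := c₀ j + ((y i j).val : ℕ)

/-- the modular invariant `j(τ) = E₄(τ) ^ 3 / Δ(τ) = 1 / q + 744 + ⋯` -/
noncomputable def jInv (τ : UpperHalfPlane) : ℂ :=
  ModularForm.E₄ τ ^ 3 / ModularForm.discriminant τ

/-- the archimedean term `- log (|Δ(τ)| (Im τ) ^ 6)` of the Faltings height -/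
noncomputable def arch (τ : UpperHalfPlane) : ℝ :=
  -Real.log (‖ModularForm.discriminant τ‖ * τ.im ^ 6)

/-- the points `τ w` have modular invariant `j` -/
def IsPeriod {L : Type} [Field L] [NumberField L] (j : L)
    (τ : InfinitePlace L → UpperHalfPlane) : Prop := ∀ w, jInv (τ w) = w.embedding j

/-- the stable Faltings height of the Weil restriction `A = Res_{L/ℚ} E` of an elliptic curve `E`
over `L` of invariant `j`, where the points `τ w` have invariant `j` (up to an absolute multiple of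
`[L : ℚ] = dim A` which depends on the normalisation of the metric only): `12 h_F(A)` is the sum of
`log max(|j|_v, 1)` over the finite places `v` of `L`, the stable discriminant of `E`, and of the
archimedean terms -/
noncomputable def stableHeight {L : Type} [Field L] [NumberField L] (j : L)
    (τ : InfinitePlace L → UpperHalfPlane) : ℝ :=
  (∑ᶠ v : HeightOneSpectrum (𝓞 L), Real.log (max (FinitePlace.mk v j) 1) +
    ∑ w : InfinitePlace L, (w.mult : ℝ) * arch (τ w)) / 12

/-- good reduction at `v`: some Weierstrass equation over `L` of the curve is integral at `v` and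
has a discriminant which is a unit at `v` -/
def GoodAt {L : Type} [Field L] [NumberField L] (v : HeightOneSpectrum (𝓞 L))
    (E : WeierstrassCurve L) : Prop :=
  ∃ C : WeierstrassCurve.VariableChange L,
    v.valuation L (C • E).a₁ ≤ 1 ∧ v.valuation L (C • E).a₂ ≤ 1 ∧ v.valuation L (C • E).a₃ ≤ 1 ∧
    v.valuation L (C • E).a₄ ≤ 1 ∧ v.valuation L (C • E).a₆ ≤ 1 ∧ v.valuation L (C • E).Δ = 1

/-- good reduction at all primes of `L` which do not divide `N` -/
def GoodOutside {L : Type} [Field L] [NumberField L] (N : ℕ) (E : WeierstrassCurve L) : Prop :=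
  ∀ v : HeightOneSpectrum (𝓞 L), (N : 𝓞 L) ∉ v.asIdeal → GoodAt v E

/-- the bound, with parameters `κ` and `C`, for the Weil restrictions `A = Res_{L/ℚ} E` of all
elliptic curves `E` over `L` of invariant `j`: `h_F(A) ≤ κ n log N + C n`, where `n = [L : ℚ] = dim A`,
whenever `E` has good reduction outside `N`, in particular whenever `A` extends to an abelian scheme
over `Spec ℤ[1 / N]` -/
def Bound (κ C : ℝ) {L : Type} [Field L] [NumberField L] (j : L) : Prop :=
  ∀ (E : WeierstrassCurve L) (τ : InfinitePlace L → UpperHalfPlane) (N : ℕ), N ≠ 0 → E.Δ ≠ 0 →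
    E.c₄ ^ 3 / E.Δ = j → IsPeriod j τ → GoodOutside N E →
    stableHeight j τ ≤ κ * Module.finrank ℚ L * Real.log N + C * Module.finrank ℚ L

open MvPolynomial

/-- the sum over the primes `y < p ≤ x` of the proportion of the vectors modulo `p` that are zeros of
`D` but not of `A` is at least `δ (log log x - log log y) - C` -/
def MeanPoles {r : ℕ} (A D : MvPolynomial (Fin r) ℤ) : Prop :=
  ∃ δ C : ℝ, 0 < δ ∧ ∀ y x : ℕ, 3 ≤ y → y ≤ x →
    δ * (Real.log (Real.log x) - Real.log (Real.log y)) - C ≤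
      ∑ p ∈ (Finset.Ioc y x).filter Nat.Prime,
        ({ρ : Fin r → ZMod p | aeval ρ D = 0 ∧ aeval ρ A ≠ 0}.ncard : ℝ) / (p : ℝ) ^ r

/-- `v` is not a pole of `A / D`, and the bound holds at `(A / D) (v)` over all number fields -/
def Holds (κ C : ℝ) {r : ℕ} (A D : MvPolynomial (Fin r) ℤ) (v : Fin r → ℤ) : Prop :=
  eval v D ≠ 0 ∧ ∀ (L : Type) [Field L] [NumberField L],
    Bound κ C (((eval v A : ℤ) : L) / ((eval v D : ℤ) : L))

section Aux

open Pool.Agent.Y733.UD Pool.Agent.Y733.LS Pool.Agent.W223.AK Pool.Agent.H691R3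
  Pool.Agent.Y733.FF Pool.Agent.N141.TS Height

/-- the bound from a large pole -/
theorem bound_of : ∃ C : ℝ, 0 < C ∧ ∀ (σ : ℝ), 0 ≤ σ → ∀ x y : ℤ, Big5 σ x y →
    ∀ (L : Type) [Field L] [NumberField L], Bound (σ / 12) C ((x : L) / y) := by
  obtain ⟨c, hc0, hc⟩ := arch_le
  refine ⟨(c + 1) / 12, by positivity, fun σ hσ x y hb L _ _ => ?_⟩
  intro E τ N hN hE hj hτ hg
  obtain ⟨hy0, p, hp, -, hpy, hpx, H, hxH, hyH, hle⟩ := hb
  have hx0 : x ≠ 0 := by
    rintro rfl
    exact hpx (dvd_zero _)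
  have hτ' : Pool.Agent.TH876.FH.IsPeriod ((x : L) / y) τ := hτ
  have h2 := hc L _ τ hτ'
  have h4 : ht ((x : L) / y) =
      ∑ w : InfinitePlace L, (w.mult : ℝ) * Real.log (max (w ((x : L) / y)) 1) +
      ∑ᶠ v : HeightOneSpectrum (𝓞 L), Real.log (max (FinitePlace.mk v ((x : L) / y)) 1) := by
    rw [← Pool.Agent.TH876.FH.Hj_height, logHeight_eq, ht_eq_Sa]
  have h6 : ht ((x : L) / y) ≤ Module.finrank ℚ L * (σ * Real.log p) := by
    have h7 : logHeight₁ ((x : L) / y) = ht ((x : L) / y) := by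
      rw [logHeight_eq, ht_eq_Sa]
    rw [← h7]
    exact (ht_le L hx0 hy0 hxH hyH).trans (mul_le_mul_of_nonneg_left hle (Nat.cast_nonneg _))
  -- the prime `p` divides `N`
  have hpN : p ∣ N := by
    obtain ⟨v, hv⟩ := exists_above L hp
    have hbad : ¬ Pool.Agent.TH876.FH.GoodAt v E := by
      intro hg'
      have h1 := good_int v E hE hg'
      rw [hj, fv_le_one_iff, map_div₀, val_int hp hv hpx] at h1
      have h2 := val_lt hv hpy
      have h3 : v.valuation L (y : L) ≠ 0 := (v.valuation L).ne_zero_iff.2 (by exact_mod_cast hy0)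
      have h4 : (1 : WithZero (Multiplicative ℤ)) ≤ v.valuation L (y : L) := by
        rw [div_le_iff₀ (zero_lt_iff.2 h3), one_mul] at h1
        exact h1
      exact absurd h2 (not_lt.2 h4)
    have hmem : (N : 𝓞 L) ∈ v.asIdeal := by
      by_contra hcon
      exact hbad (hg v hcon)
    by_contra hcon
    have h1 : ¬ (p : ℤ) ∣ (N : ℤ) := by exact_mod_cast hcon
    have h2 := not_mem_of hp hv h1
    rw [Int.cast_natCast] at h2
    exact h2 hmem
  have hlog : Real.log p ≤ Real.log N :=
    Real.log_le_log (by exact_mod_cast hp.pos)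
      (by exact_mod_cast Nat.le_of_dvd (Nat.pos_of_ne_zero hN) hpN)
  have hn : (0 : ℝ) ≤ Module.finrank ℚ L := Nat.cast_nonneg _
  have h8 : (Module.finrank ℚ L : ℝ) * (σ * Real.log p) ≤
      Module.finrank ℚ L * (σ * Real.log N) :=
    mul_le_mul_of_nonneg_left (mul_le_mul_of_nonneg_left hlog hσ) hn
  unfold stableHeight
  have e : ∑ w : InfinitePlace L, (w.mult : ℝ) * arch (τ w) =
      ∑ w : InfinitePlace L, (w.mult : ℝ) * Pool.Agent.TH876.FH.arch (τ w) := rfl
  rw [e, div_le_iff₀ (by norm_num)]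
  have e2 : (σ / 12 * Module.finrank ℚ L * Real.log N + (c + 1) / 12 * Module.finrank ℚ L) * 12 =
      Module.finrank ℚ L * (σ * Real.log N) + c * Module.finrank ℚ L + Module.finrank ℚ L := by
    ring
  rw [e2]
  linarith

end Aux

/-- products of powers of Weil restrictions -/
theorem products {κ C : ℝ} {r : ℕ} (L : Fin r → Type) [∀ i, Field (L i)] [∀ i, NumberField (L i)]
    (j : ∀ i, L i) (E : ∀ i, WeierstrassCurve (L i))
    (τ : ∀ i, InfinitePlace (L i) → UpperHalfPlane) (m : Fin r → ℕ) (N : ℕ) (hN : N ≠ 0)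
    (h : ∀ i, Bound κ C (j i) ∧ (E i).Δ ≠ 0 ∧ (E i).c₄ ^ 3 / (E i).Δ = j i ∧
      IsPeriod (j i) (τ i) ∧ GoodOutside N (E i)) :
    ∑ i, (m i : ℝ) * stableHeight (j i) (τ i) ≤
      κ * (∑ i, m i * Module.finrank ℚ (L i) : ℕ) * Real.log N +
        C * (∑ i, m i * Module.finrank ℚ (L i) : ℕ) := by
  have h1 : ∀ i, (m i : ℝ) * stableHeight (j i) (τ i) ≤
      (m i : ℝ) * (κ * Module.finrank ℚ (L i) * Real.log N + C * Module.finrank ℚ (L i)) := fun i =>
    mul_le_mul_of_nonneg_left ((h i).1 (E i) (τ i) N hN (h i).2.1 (h i).2.2.1 (h i).2.2.2.1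
      (h i).2.2.2.2) (Nat.cast_nonneg _)
  refine (Finset.sum_le_sum fun i _ => h1 i).trans (le_of_eq ?_)
  push_cast
  rw [Finset.mul_sum, Finset.mul_sum, Finset.sum_mul, ← Finset.sum_add_distrib]
  refine Finset.sum_congr rfl fun i _ => ?_
  ring

/-- **(1)** There is an absolute constant `C` such that: let `A, D` be integral polynomials in `r` variables such that `A / D`
has many poles in the mean, `D ≠ 0`, and let `B` and `ε, β > 0` be arbitrary. There are `κ` and `Z₀` such that for all families of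
vectors `y_i`, `i ∈ s`, of residues modulo any `q` with `r` coordinates and Fourier coefficients at most
`|s| / (Z (42 + 3 log q) ^ r)` at all nonzero frequencies, where `q ^ β ≤ Z ≤ q`, `Z ≥ Z₀`, and for all integral vectors `c₀` with
`|c₀| ≤ q ^ B`: for all but `ε |s|` of the `i` the bound `h_F(A) ≤ κ n log N + C n` holds for the Weil restrictions
`A = Res_{L/ℚ} E`, of dimension `n = [L : ℚ]`, with good reduction outside `N`, of ALL elliptic curves `E` of invariant
`j = (A / D)(c₀ + y_i)` over ALL number fields `L`. It follows for products of powers of such Weil restrictions, with different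
curves, fields and members of the families. The invariant `6912 t₁³ / (4 t₁³ + 27 t₂²)` of the universal family
`y² = x³ + t₁ x + t₂` has many poles in the mean.

**(2)** Products: if the residues `y_j(t)`, `t ∈ s_j`, have Fourier coefficients at most `η |s_j|` for each coordinate `j`, then
the product family of vectors `(y_j(g_j))_j`, `g_j ∈ s_j`, has Fourier coefficients at most `η` times the number of its members.

**(3)** Families of residues modulo primes `p` with Fourier coefficients at most `|s| / K`, `K ≥ 1` arbitrary: the quotients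
`j / r` of the integers `0 ≤ j < S` by the primes `r ≤ R`, if `K log ^ 4 p ≤ R < p` and `R ^ 2 ≤ S` (and `p` is large); the cosets
of all subgroups of the multiplicative group of an order of at least `5 p ^ (3/8) K ^ 3`; the residues `a b + g(a) + k(b)`,
`a ∈ A`, `b ∈ B`, for arbitrary sets with `|A| |B| ≥ p K ^ 2` and arbitrary functions `g` and `k`.

**(4)** Polynomial curves: for `1 ≤ d ≤ D` there is `C` such that for all primes `p` and all integral polynomials `f_j` of
pairwise distinct degrees between `d` and `D` whose leading coefficients are not divisible by `p`, the vectors `(f_j(n))_j`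
modulo `p`, `0 ≤ n < x`, have Fourier coefficients at most `x / K` for all `K ≥ 1` with `C K ^ C ≤ p` and
`C K ^ C p ≤ x ^ d`. (So there are such families with only about `p ^ (1 / d)` members.) -/
theorem result :
    ((∃ C : ℝ, 0 < C ∧ ∀ (r : ℕ) (A D : MvPolynomial (Fin r) ℤ), D ≠ 0 → MeanPoles A D → ∀ (ε β : ℝ) (B : ℕ), 0 < ε →
      0 < β → ∃ (κ : ℝ) (Z₀ : ℕ), 0 < κ ∧ ∀ (τ : Type) (q : ℕ) [NeZero q] (s : Finset τ) (y : τ → Fin r → ZMod q) (Z : ℝ),
        Z₀ ≤ Z → (q : ℝ) ^ β ≤ Z → Small q Z s y → ∀ c₀ : Fin r → ℤ, (∀ j, |(c₀ j : ℝ)| ≤ (q : ℝ) ^ B) →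
        ({i : τ | i ∈ s ∧ ¬ Holds κ C A D (vec y c₀ i)}.ncard : ℝ) ≤ ε * s.card) ∧
      (∀ (κ C : ℝ) (r : ℕ) (L : Fin r → Type) [∀ i, Field (L i)] [∀ i, NumberField (L i)]
        (j : ∀ i, L i) (E : ∀ i, WeierstrassCurve (L i))
        (τ : ∀ i, InfinitePlace (L i) → UpperHalfPlane) (m : Fin r → ℕ) (N : ℕ), N ≠ 0 →
        (∀ i, Bound κ C (j i) ∧ (E i).Δ ≠ 0 ∧ (E i).c₄ ^ 3 / (E i).Δ = j i ∧
          IsPeriod (j i) (τ i) ∧ GoodOutside N (E i)) →
        ∑ i, (m i : ℝ) * stableHeight (j i) (τ i) ≤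
          κ * (∑ i, m i * Module.finrank ℚ (L i) : ℕ) * Real.log N +
            C * (∑ i, m i * Module.finrank ℚ (L i) : ℕ)) ∧
      MeanPoles (C 6912 * X 0 ^ 3 : MvPolynomial (Fin 2) ℤ) (C 4 * X 0 ^ 3 + C 27 * X 1 ^ 2)) ∧
    (∀ (ι : Type) [Fintype ι] [DecidableEq ι] (q : ℕ) [NeZero q] (η : ℝ) (τ : Type) (s : ι → Finset τ) (y : ι → τ → ZMod q),
      (∀ j, Flat1 q η (s j) (y j)) → Flat q η (Fintype.piFinset s) (fun g j => y j (g j))) ∧
    (∃ P₀ : ℕ, ∀ p : ℕ, P₀ ≤ p → ∀ [Fact p.Prime] (K : ℝ), 1 ≤ K →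
      (∀ R S : ℕ, K * Real.log p ^ 4 ≤ R → R < p → R ^ 2 ≤ S →
        Flat1 p (1 / K) (((Finset.Icc 1 R).filter Nat.Prime) ×ˢ Finset.range S)
          (fun z => ((z.2 : ℕ) : ZMod p) * ((z.1 : ℕ) : ZMod p)⁻¹)) ∧
      (∀ (H : Subgroup (ZMod p)ˣ) (s : Finset (ZMod p)ˣ), (∀ u, u ∈ s ↔ u ∈ H) →
        5 * (p : ℝ) ^ (3 / 8 : ℝ) * K ^ 3 ≤ s.card → ∀ x : ZMod p, x ≠ 0 → Flat1 p (1 / K) s (fun u => x * (u : ZMod p))) ∧
      (∀ (A B : Finset (ZMod p)) (g k : ZMod p → ZMod p), (p : ℝ) * K ^ 2 ≤ A.card * B.card →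
        Flat1 p (1 / K) (A ×ˢ B) (fun z => z.1 * z.2 + g z.1 + k z.2))) ∧
    (∀ d D : ℕ, 1 ≤ d → ∃ C : ℕ, ∀ (ι : Type) [Fintype ι] (p : ℕ) [Fact p.Prime] (f : ι → Polynomial ℤ),
      (∀ j, d ≤ (f j).natDegree ∧ (f j).natDegree ≤ D ∧ ¬ (p : ℤ) ∣ (f j).leadingCoeff) →
      Function.Injective (fun j => (f j).natDegree) → ∀ K : ℝ, 1 ≤ K → C * K ^ C ≤ p → ∀ x : ℕ,
      C * K ^ C * p ≤ (x : ℝ) ^ d → Flat p (1 / K) (Finset.range x) (fun n j => (((f j).eval (n : ℤ) : ℤ) : ZMod p))) := by
  refine ⟨⟨?_, fun κ C r L _ _ j E τ m N hN h => products L j E τ m N hN h, Pool.Agent.N141.TS.mean_wei⟩, ⟨fun ι _ _ q _ η τ s y h => Pool.Agent.N384.VF.flat_pi q η s y h, ?_,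
    fun d D hd => Pool.Agent.N384.VF.flat_poly d D hd⟩⟩
  · obtain ⟨C, hC, hb⟩ := bound_of
    refine ⟨C, hC, fun r A D hD hM ε β B hε hβ => ?_⟩
    obtain ⟨σ, hσ, Z₀, hZ₀⟩ := Pool.Agent.N384.VF.big5 hD hM ε β B hε hβ
    have key : ∀ v : Fin r → ℤ, Pool.Agent.N141.TS.Big5 σ (eval v A) (eval v D) →
        Holds ((σ + 1) / 12) C A D v := by
      intro v hv
      refine ⟨hv.1, fun L _ _ E τ N hN hE hj hτ hg => ?_⟩
      refine (hb σ hσ _ _ hv L E τ N hN hE hj hτ hg).trans ?_
      have h1 : 0 ≤ (Module.finrank ℚ L : ℝ) * Real.log N :=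
        mul_nonneg (Nat.cast_nonneg _) (Real.log_natCast_nonneg _)
      nlinarith
    refine ⟨(σ + 1) / 12, Z₀, by positivity, fun τ q _ s y Z hZ hqZ hsm c₀ hc₀ => ?_⟩
    exact (Pool.Agent.N384.VF.ncard_mono fun i _ hn hb => hn (key _ hb)).trans
      (hZ₀ τ q s y Z hZ hqZ ⟨hsm.1, hsm.2⟩ c₀ hc₀)
  · obtain ⟨P₀, h0⟩ := Pool.Agent.N384.MQ.flatK_quot
    exact ⟨P₀, fun p hp _ K hK => ⟨fun R S => h0 p hp K hK R S,
      fun H s hs hc x hx => Pool.Agent.N384.MQ.flatK_coset p H s hs K hK hc x hx,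
      fun A B g k hAB => Pool.Agent.N384.MQ.flatK_prod p A B g k K hK hAB⟩⟩

end Pool.Agent.Results.MP_07b2d0_nt.ResidueVectors
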